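import Pool.Agent.N303.SJ.Stm

set_option autoImplicit false

/-!
# Project SJ (helper303), leaf BB (helper559): means of the energies of balls in a shell
-/

open MeasureTheory Metric Set
open scoped ENNReal RealInnerProductSpace NNReal

namespace Pool.Agent.N559.SJ

open Pool.Agent.N303.SH Pool.Agent.N303.SJ

/-- the weighted power mean inequality -/
theorem pm {s : Finset ℕ} (α X : ℕ → ℝ≥0∞) (hα : ∀ k ∈ s, α k ≠ ∞) {p : ℝ} (hp : 1 ≤ p) :
    (∑ k ∈ s, α k * X k) ^ p ≤ (∑ k ∈ s, α k) ^ (p - 1) * ∑ k ∈ s, α k * X k ^ p := by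
  set A := ∑ k ∈ s, α k with hA
  have hAt : A ≠ ∞ := ENNReal.sum_ne_top.2 hα
  rcases eq_or_ne A 0 with h0 | h0
  · have h1 : ∀ k ∈ s, α k = 0 := Finset.sum_eq_zero_iff.1 (hA ▸ h0)
    rw [Finset.sum_eq_zero fun k hk => by rw [h1 k hk, zero_mul],
      ENNReal.zero_rpow_of_pos (by linarith)]
    exact zero_le
  · have hw : ∑ k ∈ s, α k / A = 1 := by
      simp only [div_eq_mul_inv, ← Finset.sum_mul]
      exact ENNReal.mul_inv_cancel h0 hAt
    have h2 := ENNReal.rpow_arith_mean_le_arith_mean_rpow s (fun k => α k / A) X hw hp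
    have h3 : ∀ k x, A * (α k / A * x) = α k * x := fun k x => by
      rw [← mul_assoc, ENNReal.mul_div_cancel h0 hAt]
    have e1 : ∑ k ∈ s, α k * X k = A * ∑ k ∈ s, α k / A * X k := by
      rw [Finset.mul_sum]
      exact Finset.sum_congr rfl fun k _ => (h3 k _).symm
    have e2 : ∑ k ∈ s, α k * X k ^ p = A * ∑ k ∈ s, α k / A * X k ^ p := by
      rw [Finset.mul_sum]
      exact Finset.sum_congr rfl fun k _ => (h3 k _).symm
    have e3 : A ^ p = A ^ (p - 1) * A := by
      have := ENNReal.rpow_add (p - 1) 1 h0 hAt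
      rw [ENNReal.rpow_one] at this
      rw [← this]
      congr 1
      ring
    rw [e1, e2, ENNReal.mul_rpow_of_nonneg _ _ (by linarith), e3, mul_assoc]
    gcongr

/-- Hölder's inequality with the constant function -/
theorem hol {p : ℝ} (hp : 1 < p) (μ : Measure ℝ) {f : ℝ → ℝ≥0∞} (hf : AEMeasurable f μ) :
    (∫⁻ r, f r ∂μ) ^ p ≤ μ univ ^ (p - 1) * ∫⁻ r, f r ^ p ∂μ := by
  have hpq := Real.HolderConjugate.conjExponent hp
  have h := ENNReal.lintegral_mul_le_Lp_mul_Lq μ hpq hf (g := fun _ => 1) aemeasurable_const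
  simp only [Pi.mul_apply, mul_one, ENNReal.one_rpow, lintegral_const, one_mul] at h
  have hp0 : 0 < p := by linarith
  have h2 := ENNReal.rpow_le_rpow h hp0.le
  rw [ENNReal.mul_rpow_of_nonneg _ _ hp0.le, ← ENNReal.rpow_mul, ← ENNReal.rpow_mul,
    one_div_mul_cancel hp0.ne', ENNReal.rpow_one] at h2
  have e : 1 / Real.conjExponent p * p = p - 1 := by
    unfold Real.conjExponent
    have : p - 1 ≠ 0 := by linarith
    field_simp
  rw [e, mul_comm] at h2
  exact h2

/-- Tonelli -/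
theorem ton {T ρ : ℝ} (hρ : 0 < ρ) (hT : ρ ≤ T / 4) {W : ℝ → ℝ≥0∞} (hW : Measurable W) :
    ∫⁻ s in Icc T (2 * T), ∫⁻ r in Ioo (s - ρ) (s + ρ), W r ≤
      ENNReal.ofReal (2 * ρ) * ∫⁻ r in Ioo (T / 2) (3 * T), W r := by
  set U : Set (ℝ × ℝ) := {z | z.1 - ρ < z.2 ∧ z.2 < z.1 + ρ} with hU
  have hUm : MeasurableSet U := by
    apply MeasurableSet.inter
    · exact measurableSet_lt (measurable_fst.sub_const ρ) measurable_snd
    · exact measurableSet_lt measurable_snd (measurable_fst.add_const ρ)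
  have h1 : ∀ s, ∫⁻ r in Ioo (s - ρ) (s + ρ), W r =
      ∫⁻ r, U.indicator (fun z => W z.2) (s, r) := by
    intro s
    rw [← lintegral_indicator measurableSet_Ioo]
    refine lintegral_congr fun r => ?_
    by_cases h : r ∈ Ioo (s - ρ) (s + ρ)
    · rw [indicator_of_mem h, indicator_of_mem (show (s, r) ∈ U from h)]
    · rw [indicator_of_notMem h, indicator_of_notMem (show (s, r) ∉ U from h)]
  simp only [h1]
  rw [lintegral_lintegral_swap (f := fun s r => U.indicator (fun z => W z.2) (s, r))]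
  · rw [← lintegral_indicator measurableSet_Ioo, ← lintegral_const_mul _
      (hW.indicator measurableSet_Ioo)]
    refine lintegral_mono fun r => ?_
    by_cases h : r ∈ Ioo (T / 2) (3 * T)
    · rw [indicator_of_mem h]
      have h2 : ∀ s, U.indicator (fun z => W z.2) (s, r) ≤
          (Ioo (r - ρ) (r + ρ)).indicator (fun _ => W r) s := by
        intro s
        by_cases h3 : (s, r) ∈ U
        · rw [indicator_of_mem h3, indicator_of_mem]
          have h4 : s - ρ < r ∧ r < s + ρ := h3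
          constructor <;> linarith [h4.1, h4.2]
        · rw [indicator_of_notMem h3]
          exact zero_le
      calc ∫⁻ s in Icc T (2 * T), U.indicator (fun z => W z.2) (s, r)
          ≤ ∫⁻ s, U.indicator (fun z => W z.2) (s, r) := setLIntegral_le_lintegral _ _
        _ ≤ ∫⁻ s, (Ioo (r - ρ) (r + ρ)).indicator (fun _ => W r) s := lintegral_mono h2
        _ = W r * ENNReal.ofReal (2 * ρ) := by
            rw [lintegral_indicator measurableSet_Ioo, setLIntegral_const, Real.volume_Ioo]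
            congr 2
            ring
        _ = _ := mul_comm _ _
    · rw [indicator_of_notMem h, mul_zero, nonpos_iff_eq_zero]
      rw [← lintegral_indicator measurableSet_Icc, lintegral_eq_zero_iff']
      · refine Filter.Eventually.of_forall fun s => ?_
        simp only [Pi.zero_apply]
        by_cases h5 : s ∈ Icc T (2 * T)
        · rw [indicator_of_mem h5, indicator_of_notMem]
          intro h6
          have h7 : s - ρ < r ∧ r < s + ρ := h6
          apply h
          constructor <;> linarith [h7.1, h7.2, h5.1, h5.2]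
        · rw [indicator_of_notMem h5]
      · apply Measurable.aemeasurable
        refine Measurable.indicator ?_ measurableSet_Icc
        exact ((hW.comp measurable_snd).indicator hUm).comp (by fun_prop)
  · apply Measurable.aemeasurable
    exact (hW.comp measurable_snd).indicator hUm

/-- the integrand of `S_WB` -/
noncomputable def Wf (c k : ℕ) (q r : ℝ) : ℝ≥0∞ :=
  ENNReal.ofReal (‖Ic c k r‖ ^ q * r ^ (((c : ℝ) + 1) * q / 2))

theorem Wf_meas (c k : ℕ) (q : ℝ) : Measurable (Wf c k q) := by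
  unfold Wf
  apply Measurable.ennreal_ofReal
  exact ((Ic_cont c k).norm.measurable.pow_const q).mul (measurable_id.pow_const _)

theorem Wf_eq (c k : ℕ) {q r : ℝ} (hq : 0 < q) (hr : 0 < r) :
    ENNReal.ofReal (‖Ic c k r‖ ^ 2 * r ^ (c + 1)) ^ (q / 2) = Wf c k q r := by
  unfold Wf
  rw [ENNReal.ofReal_rpow_of_nonneg (by positivity) (by positivity)]
  congr 1
  rw [Real.mul_rpow (by positivity) (by positivity), ← Real.rpow_natCast (‖Ic c k r‖) 2,
    ← Real.rpow_mul (norm_nonneg _), ← Real.rpow_natCast r (c + 1), ← Real.rpow_mul hr.le]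
  congr 2
  · push_cast
    ring
  · push_cast
    ring

theorem X_meas (c k : ℕ) :
    Measurable fun r : ℝ => ENNReal.ofReal (‖Ic c k r‖ ^ 2 * r ^ (c + 1)) := by
  apply Measurable.ennreal_ofReal
  exact ((Ic_cont c k).norm.measurable.pow_const 2).mul (measurable_id.pow_const _)

/-- the pointwise bound -/
theorem ptw {J : Finset ℕ} {c : ℕ} {q : ℝ} (hq : 2 < q) (α : ℕ → ℝ) {ρ s : ℝ} (hρ : 0 < ρ)
    (hs : ρ ≤ s / 2) {Y : ℝ≥0∞} (hY : Y ≤ 4 * ∑ k ∈ J, ENNReal.ofReal (α k) *
      ∫⁻ r in Ioo (s - ρ) (s + ρ), ENNReal.ofReal (‖Ic c k r‖ ^ 2 * r ^ (c + 1))) :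
    Y ^ (q / 2) ≤ 4 ^ (q / 2) * ENNReal.ofReal (2 * ρ) ^ (q / 2 - 1) *
      (∑ k ∈ J, ENNReal.ofReal (α k)) ^ (q / 2 - 1) *
      ∫⁻ r in Ioo (s - ρ) (s + ρ), ∑ k ∈ J, ENNReal.ofReal (α k) * Wf c k q r := by
  have hp : 1 < q / 2 := by linarith
  have h1 := ENNReal.rpow_le_rpow hY (by linarith : 0 ≤ q / 2)
  rw [ENNReal.mul_rpow_of_nonneg _ _ (by linarith)] at h1
  have h2 := pm (s := J) (fun k => ENNReal.ofReal (α k))
    (fun k => ∫⁻ r in Ioo (s - ρ) (s + ρ), ENNReal.ofReal (‖Ic c k r‖ ^ 2 * r ^ (c + 1)))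
    (fun k _ => ENNReal.ofReal_ne_top) hp.le
  have h3 : ∀ k, (∫⁻ r in Ioo (s - ρ) (s + ρ),
      ENNReal.ofReal (‖Ic c k r‖ ^ 2 * r ^ (c + 1))) ^ (q / 2) ≤
      ENNReal.ofReal (2 * ρ) ^ (q / 2 - 1) * ∫⁻ r in Ioo (s - ρ) (s + ρ), Wf c k q r := by
    intro k
    refine (hol hp (volume.restrict (Ioo (s - ρ) (s + ρ))) (X_meas c k).aemeasurable).trans ?_
    rw [Measure.restrict_apply_univ, Real.volume_Ioo]
    have e1 : s + ρ - (s - ρ) = 2 * ρ := by ring
    rw [e1]
    refine mul_le_mul' le_rfl (le_of_eq ?_)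
    refine setLIntegral_congr_fun measurableSet_Ioo fun r hr => ?_
    exact Wf_eq c k (by linarith) (by linarith [hr.1])
  have e2 : ∫⁻ r in Ioo (s - ρ) (s + ρ), ∑ k ∈ J, ENNReal.ofReal (α k) * Wf c k q r =
      ∑ k ∈ J, ENNReal.ofReal (α k) * ∫⁻ r in Ioo (s - ρ) (s + ρ), Wf c k q r := by
    rw [lintegral_finsetSum _ fun k _ => (Wf_meas c k q).const_mul _]
    refine Finset.sum_congr rfl fun k _ => ?_
    rw [lintegral_const_mul _ (Wf_meas c k q)]
  rw [e2]
  calc Y ^ (q / 2) ≤ 4 ^ (q / 2) * ((∑ k ∈ J, ENNReal.ofReal (α k)) ^ (q / 2 - 1) *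
        ∑ k ∈ J, ENNReal.ofReal (α k) * (∫⁻ r in Ioo (s - ρ) (s + ρ),
          ENNReal.ofReal (‖Ic c k r‖ ^ 2 * r ^ (c + 1))) ^ (q / 2)) :=
        h1.trans (mul_le_mul' le_rfl h2)
    _ ≤ 4 ^ (q / 2) * ((∑ k ∈ J, ENNReal.ofReal (α k)) ^ (q / 2 - 1) *
        ∑ k ∈ J, ENNReal.ofReal (α k) * (ENNReal.ofReal (2 * ρ) ^ (q / 2 - 1) *
          ∫⁻ r in Ioo (s - ρ) (s + ρ), Wf c k q r)) := by
        refine mul_le_mul' le_rfl (mul_le_mul' le_rfl (Finset.sum_le_sum fun k _ => ?_))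
        exact mul_le_mul' le_rfl (h3 k)
    _ = _ := by
        rw [mul_assoc, mul_assoc]
        congr 1
        rw [mul_left_comm]
        congr 1
        rw [Finset.mul_sum]
        refine Finset.sum_congr rfl fun k _ => ?_
        rw [mul_left_comm]

theorem F_meas {n : ℕ} {G : E n → ℝ≥0∞} (hG : Measurable G) (ρ p : ℝ) :
    Measurable fun x : E n => (∫⁻ y in ball x ρ, G y) ^ p := by
  apply Measurable.pow_const
  set U : Set (E n × E n) := {z | dist z.2 z.1 < ρ} with hU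
  have hUm : MeasurableSet U := measurableSet_lt (by fun_prop) measurable_const
  have h1 : (fun x : E n => ∫⁻ y in ball x ρ, G y) =
      fun x => ∫⁻ y, U.indicator (fun z => G z.2) (x, y) := by
    funext x
    rw [← lintegral_indicator measurableSet_ball]
    refine lintegral_congr fun y => ?_
    by_cases h : y ∈ ball x ρ
    · rw [indicator_of_mem h, indicator_of_mem (show (x, y) ∈ U from h)]
    · rw [indicator_of_notMem h, indicator_of_notMem (show (x, y) ∉ U from h)]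
  rw [h1]
  exact ((hG.comp measurable_snd).indicator hUm).lintegral_prod_right'

theorem blk_int {c : ℕ} (J : Finset ℕ) (g : S (c + 2) → ℂ) :
    Integrable (blk J g) (sg (c + 2)) := by
  apply int_cc
  unfold blk
  exact continuous_finsetSum _ fun k _ => cp_cont k g

theorem t_bb (h1 : S_PK) (h2 : S_JEN) (h3 : S_PT) (h4 : S_LOC) (h5 : S_WB) :
    Pool.Agent.N303.SJ.S_BB := by
  intro c hc q hq hq4 hsc
  obtain ⟨C, aP, hC, haP, hPK⟩ := h1 c
  obtain ⟨B0, hB0, hWB⟩ := h5 c hc q hq hq4 hsc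
  have hp : 1 < q / 2 := by linarith
  refine ⟨min (aP / 2) (1 / 4), 2 ^ (c + 1) * 4 ^ (q / 2) * 2 ^ (q / 2) * B0 * C ^ (q / 2),
    by positivity, by positivity, ?_⟩
  intro K J m hJ hm g hgm hg hD T ρ hρ hρT
  have hm0 : (0 : ℝ) < m := by exact_mod_cast hm
  have hm1 : (1 : ℝ) ≤ m := by exact_mod_cast hm
  set a := min (aP / 2) (1 / 4) with ha
  have ha0 : 0 < a := by positivity
  have ha1 : a ≤ aP / 2 := min_le_left _ _
  have ha2 : a ≤ 1 / 4 := min_le_right _ _
  have hT : 0 < T := by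
    by_contra hcon
    push Not at hcon
    have : a * T / m ≤ 0 := div_nonpos_of_nonpos_of_nonneg (mul_nonpos_of_nonneg_of_nonpos ha0.le hcon) hm0.le
    linarith
  have hρ4 : ρ ≤ T / 4 := by
    have h6 : a * T / m ≤ a * T := div_le_self (by positivity) hm1
    have h7 : a * T ≤ 1 / 4 * T := mul_le_mul_of_nonneg_right ha2 hT.le
    linarith
  obtain ⟨p, p1, p2, p3, p4, p5⟩ := hPK m hm
  set D : ℝ := C * (m : ℝ) ^ (-((c : ℝ) + 1)) with hDdef
  have hD0 : 0 < D := by positivity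
  set G : E (c + 2) → ℝ≥0∞ := fun y => ‖ft (blk J g) y‖ₑ ^ (2 : ℝ) with hG
  have hGm : Measurable G := by
    have := (ft_cont (blk_int J g)).measurable
    exact this.enorm.pow_const _
  set F : E (c + 2) → ℝ≥0∞ := fun x => (∫⁻ y in ball x ρ, G y) ^ (q / 2) with hF
  have hFm : Measurable F := F_meas hGm ρ _
  have hSm : MeasurableSet (Sh (c + 2) T) := by
    apply MeasurableSet.inter
    · exact measurableSet_le measurable_const measurable_norm
    · exact measurableSet_le measurable_norm measurable_const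
  set α : S (c + 2) → ℕ → ℝ := fun w k => ∫ y, p w y ^ 2 * ‖cp k g y‖ ^ 2 ∂(sg (c + 2)) with hα
  set A : S (c + 2) → ℝ≥0∞ := fun w => ∑ k ∈ J, ENNReal.ofReal (α w k) with hA
  set V : S (c + 2) → ℝ → ℝ≥0∞ := fun w r => ∑ k ∈ J, ENNReal.ofReal (α w k) * Wf c k q r with hV
  have hVm : ∀ w, Measurable (V w) := fun w =>
    Finset.measurable_sum _ fun k _ => (Wf_meas c k q).const_mul _
  -- the pointwise bound
  have hpt : ∀ (w : S (c + 2)) (s : ℝ), s ∈ Icc T (2 * T) → F (s • (w : E (c + 2))) ≤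
      4 ^ (q / 2) * ENNReal.ofReal (2 * ρ) ^ (q / 2 - 1) * A w ^ (q / 2 - 1) *
        ∫⁻ r in Ioo (s - ρ) (s + ρ), V w r := by
    intro w s hs
    have hs0 : 0 < s := by linarith [hs.1]
    have hs2 : ρ ≤ s / 2 := by linarith [hs.1]
    apply ptw hq (α w) hρ hs2
    refine h4 c K J m hJ g hg hD (p w) (p1 w) w ρ s hρ hs2 fun w' hw' => ?_
    apply p5 w w'
    rw [norm_sub_rev]
    refine hw'.trans ?_
    rw [div_le_div_iff₀ hs0 hm0]
    have h6 : ρ * m ≤ a * T := by
      rw [le_div_iff₀ hm0] at hρT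
      exact hρT
    have h7 : a * T ≤ aP / 2 * T := mul_le_mul_of_nonneg_right ha1 hT.le
    have h8 : aP * T ≤ aP * s := mul_le_mul_of_nonneg_left hs.1 haP.le
    linarith
  have hAV : ∀ w, ∫⁻ r in Ioo (T / 2) (3 * T), V w r ≤ A w * ENNReal.ofReal (B0 * T) := by
    intro w
    simp only [hV]
    rw [lintegral_finsetSum _ fun k _ => (Wf_meas c k q).const_mul _, hA, Finset.sum_mul]
    refine Finset.sum_le_sum fun k _ => ?_
    rw [lintegral_const_mul _ (Wf_meas c k q)]
    exact mul_le_mul' le_rfl (hWB k T hT)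
  have hAt : ∀ w, A w ≠ ∞ := fun w => ENNReal.sum_ne_top.2 fun k _ => ENNReal.ofReal_ne_top
  have hApow : ∀ w, A w ^ (q / 2 - 1) * A w = A w ^ (q / 2) := by
    intro w
    rcases eq_or_ne (A w) 0 with h0 | h0
    · rw [h0, mul_zero, ENNReal.zero_rpow_of_pos (by linarith)]
    · have := ENNReal.rpow_add (q / 2 - 1) 1 h0 (hAt w)
      rw [ENNReal.rpow_one] at this
      rw [← this]
      congr 1
      ring
  have hAle : ∀ w, A w ≤ ENNReal.ofReal (∫ y, p w y ^ 2 * ‖g y‖ ^ 2 ∂(sg (c + 2))) := by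
    intro w
    have h6 := (h3 c K J m hJ g hg hD (p w) (p1 w)).1
    have h7 : ∀ k ∈ J, 0 ≤ α w k := fun k _ => integral_nonneg fun y => by positivity
    simp only [hA]
    rw [← ENNReal.ofReal_sum_of_nonneg h7]
    exact ENNReal.ofReal_le_ofReal h6
  -- the radial integral
  have hrad : ∀ w : S (c + 2), ∫⁻ r in Ioi (0 : ℝ), ENNReal.ofReal (r ^ (c + 2 - 1)) *
      (Sh (c + 2) T).indicator F (r • (w : E (c + 2))) ≤
      ENNReal.ofReal ((2 * T) ^ (c + 1)) * (4 ^ (q / 2) * ENNReal.ofReal (2 * ρ) ^ (q / 2 - 1)) *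
        ENNReal.ofReal (2 * ρ) * ENNReal.ofReal (B0 * T) * A w ^ (q / 2) := by
    intro w
    have h6 : ∫⁻ r in Ioi (0 : ℝ), ENNReal.ofReal (r ^ (c + 2 - 1)) *
        (Sh (c + 2) T).indicator F (r • (w : E (c + 2))) ≤
        ∫⁻ s in Icc T (2 * T), (ENNReal.ofReal ((2 * T) ^ (c + 1)) *
          (4 ^ (q / 2) * ENNReal.ofReal (2 * ρ) ^ (q / 2 - 1)) * A w ^ (q / 2 - 1)) *
          ∫⁻ r in Ioo (s - ρ) (s + ρ), V w r := by
      rw [← lintegral_indicator measurableSet_Ioi, ← lintegral_indicator measurableSet_Icc]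
      refine lintegral_mono fun r => ?_
      by_cases hr : r ∈ Ioi (0 : ℝ)
      · rw [indicator_of_mem hr]
        have hr0 : (0 : ℝ) < r := hr
        have hnr : ‖r • (w : E (c + 2))‖ = r := by
          rw [norm_smul, S_norm, mul_one, Real.norm_of_nonneg hr0.le]
        by_cases hrT : r ∈ Icc T (2 * T)
        · rw [indicator_of_mem hrT, indicator_of_mem]
          · have h7 : ENNReal.ofReal (r ^ (c + 2 - 1)) ≤ ENNReal.ofReal ((2 * T) ^ (c + 1)) :=
              ENNReal.ofReal_le_ofReal (pow_le_pow_left₀ hr0.le hrT.2 _)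
            refine (mul_le_mul' h7 (hpt w r hrT)).trans (le_of_eq ?_)
            ring
          · constructor
            · rw [hnr]; exact hrT.1
            · rw [hnr]; exact hrT.2
        · rw [indicator_of_notMem hrT, indicator_of_notMem, mul_zero]
          intro hcon
          apply hrT
          have h8 : T ≤ ‖r • (w : E (c + 2))‖ ∧ ‖r • (w : E (c + 2))‖ ≤ 2 * T := hcon
          rw [hnr] at h8
          exact h8
      · rw [indicator_of_notMem hr]
        exact zero_le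
    refine h6.trans ?_
    rw [lintegral_const_mul']
    · refine (mul_le_mul' le_rfl ((ton hρ hρ4 (hVm w)).trans
        (mul_le_mul' le_rfl (hAV w)))).trans (le_of_eq ?_)
      rw [← hApow w]
      ring
    · refine ENNReal.mul_ne_top (ENNReal.mul_ne_top ENNReal.ofReal_ne_top (ENNReal.mul_ne_top ?_ ?_))
        ?_
      · exact ENNReal.rpow_ne_top_of_nonneg (by linarith) (by norm_num)
      · exact ENNReal.rpow_ne_top_of_nonneg (by linarith) ENNReal.ofReal_ne_top
      · exact ENNReal.rpow_ne_top_of_nonneg (by linarith) (hAt w)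
  -- assembly
  rw [← lintegral_indicator hSm, polar (by omega) _ (hFm.indicator hSm)]
  refine (lintegral_mono hrad).trans ?_
  have hfin : ENNReal.ofReal ((2 * T) ^ (c + 1)) * (4 ^ (q / 2) *
      ENNReal.ofReal (2 * ρ) ^ (q / 2 - 1)) * ENNReal.ofReal (2 * ρ) * ENNReal.ofReal (B0 * T) =
      ENNReal.ofReal ((2 * T) ^ (c + 1) * 4 ^ (q / 2) * (2 * ρ) ^ (q / 2) * (B0 * T)) := by
    have e1 : (4 : ℝ≥0∞) ^ (q / 2) = ENNReal.ofReal (4 ^ (q / 2)) := by
      rw [← ENNReal.ofReal_rpow_of_pos (by norm_num)]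
      norm_num
    have e2 : ENNReal.ofReal (2 * ρ) ^ (q / 2 - 1) = ENNReal.ofReal ((2 * ρ) ^ (q / 2 - 1)) :=
      ENNReal.ofReal_rpow_of_pos (by positivity)
    rw [e1, e2, ← ENNReal.ofReal_mul (by positivity), ← ENNReal.ofReal_mul (by positivity),
      ← ENNReal.ofReal_mul (by positivity), ← ENNReal.ofReal_mul (by positivity)]
    congr 1
    have e3 : (2 * ρ) ^ (q / 2) = (2 * ρ) ^ (q / 2 - 1) * (2 * ρ) := by
      rw [← Real.rpow_add_one (by positivity)]
      congr 1
      ring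
    rw [e3]
    ring
  rw [hfin, lintegral_const_mul' _ _ ENNReal.ofReal_ne_top]
  have hJ2 := h2 (c + 2) p D hD0 p3 p2 p4 q hq g hgm hg
  have h9 : ∫⁻ w, A w ^ (q / 2) ∂(sg (c + 2)) ≤
      ENNReal.ofReal (D ^ (q / 2)) * ∫⁻ y, ‖g y‖ₑ ^ q ∂(sg (c + 2)) :=
    (lintegral_mono fun w => ENNReal.rpow_le_rpow (hAle w) (by linarith)).trans hJ2
  refine (mul_le_mul' le_rfl h9).trans (le_of_eq ?_)
  rw [← mul_assoc, ← ENNReal.ofReal_mul (by positivity)]
  congr 2
  have e4 : D ^ (q / 2) = C ^ (q / 2) * (m : ℝ) ^ (-(((c : ℝ) + 1) * q / 2)) := by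
    rw [hDdef, Real.mul_rpow hC.le (by positivity), ← Real.rpow_mul hm0.le]
    congr 2
    ring
  have e5 : T ^ ((c : ℝ) + 2) = T ^ (c + 1) * T := by
    have : (c : ℝ) + 2 = ((c + 2 : ℕ) : ℝ) := by push_cast; ring
    rw [this, Real.rpow_natCast]
    ring
  rw [e4, e5, mul_pow, Real.mul_rpow (by norm_num) hρ.le]
  ring

end Pool.Agent.N559.SJ
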